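import Pool.Agent.Helper17.SL.GoalsG

/-!
# Linearly independent functions have a nonzero determinant of values
-/

namespace Pool.Agent.Helper17.SL.PkDETP

open Pool.Agent.Helper17.SL Module

universe u v

theorem thm : S_DETP.{u, v} := by
  intro K _ α l φ hφ
  classical
  set w : α → Fin l → K := fun a i => φ i a with hw
  obtain ⟨κ, b, hinj, hspan, hli⟩ := exists_linearIndependent' K w
  -- the values span everything
  have htop : Submodule.span K (Set.range w) = ⊤ := by
    by_contra hne
    obtain ⟨x, hx⟩ : ∃ x : Fin l → K, x ∉ Submodule.span K (Set.range w) := by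
      by_contra hcon
      push Not at hcon
      exact hne (Submodule.eq_top_iff'.2 hcon)
    obtain ⟨f, hfx, hf⟩ := Submodule.exists_le_ker_of_notMem hx
    have h0 : ∀ a, ∑ i, f (fun j => if i = j then 1 else 0) * φ i a = 0 := by
      intro a
      have h1 : f (w a) = 0 := hf (Submodule.subset_span (Set.mem_range_self a))
      rw [LinearMap.pi_apply_eq_sum_univ f (w a)] at h1
      refine Eq.trans (Finset.sum_congr rfl fun i _ => ?_) h1
      rw [smul_eq_mul, mul_comm]
    have h2 := Fintype.linearIndependent_iff.1 hφ (fun i => f (fun j => if i = j then 1 else 0)) (by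
      funext a
      simp only [Finset.sum_apply, Pi.smul_apply, smul_eq_mul, Pi.zero_apply]
      exact h0 a)
    apply hfx
    rw [LinearMap.pi_apply_eq_sum_univ f x]
    refine Finset.sum_eq_zero fun i _ => ?_
    rw [h2 i, smul_zero]
  have hb : ⊤ ≤ Submodule.span K (Set.range (w ∘ b)) := by rw [hspan, htop]
  set β := Basis.mk hli hb with hβ
  set e : κ ≃ Fin l := β.indexEquiv (Pi.basisFun K (Fin l)) with he
  refine ⟨b ∘ e.symm, ?_⟩
  have h3 : LinearIndependent K (fun j : Fin l => w (b (e.symm j))) :=
    hli.comp e.symm e.symm.injective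
  have h4 : IsUnit (Matrix.of fun (j i : Fin l) => φ i (b (e.symm j))) :=
    Matrix.linearIndependent_rows_iff_isUnit.1 h3
  have h5 := (Matrix.isUnit_iff_isUnit_det _).1 h4
  rw [← Matrix.det_transpose] at h5
  exact h5.ne_zero

end Pool.Agent.Helper17.SL.PkDETP
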